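import Mathlib

/-!
# The residual spectrum of the stochastic adding machine operator on continuous functions is empty

Digits and probabilities are indexed from `0`: `d r` and `p r` stand for `d_{r+1}` and `p_{r+1}`.
-/

set_option autoImplicit false

namespace Pool.Agent.Results.MP_8907f9_an.NoResidual

open Finset Topology

/-- the digit space `∏ {0, …, d_r - 1}` with the product of the discrete topologies -/
abbrev Digits (d : ℕ → ℕ) : Type := ∀ r, Fin (d r)

section defs

variable {d : ℕ → ℕ} (hd : ∀ r, 2 ≤ d r) (p : ℕ → ℝ)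

/-- the zero digit -/
def zd (r : ℕ) : Fin (d r) := ⟨0, lt_of_lt_of_le two_pos (hd r)⟩

/-- `x` has a digit different from `d_r - 1` (i.e. `x ≠ x_max`, i.e. `s_x < ∞`). -/
abbrev HasSmall (x : Digits d) : Prop := ∃ r, (x r : ℕ) ≠ d r - 1

/-- `V x = x + 1` with carries; `V x_max = 0` -/
noncomputable def V (x : Digits d) : Digits d := by
  classical
  exact if h : HasSmall x then
    fun r => if r < Nat.find h then zd hd r
      else if r = Nat.find h then
        ⟨((x r : ℕ) + 1) % d r, Nat.mod_lt _ (lt_of_lt_of_le two_pos (hd r))⟩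
      else x r
  else zd hd

/-- `T_s x`: the first `s` digits are replaced by `0` -/
def T (s : ℕ) (x : Digits d) : Digits d := fun r => if r < s then zd hd r else x r

/-- the formula defining `(S g)(x)`, for a function `g` on the digit space; if `x` has a smallest
index `t` (counted from `0`) with digit different from `d_t - 1`, then `s_x = t + 1` -/
noncomputable def formula (g : Digits d → ℂ) (x : Digits d) : ℂ := by
  classical
  exact if h : HasSmall x then
    (1 - p 0 : ℝ) * g x + (∏ r ∈ range (Nat.find h + 1), p r : ℝ) * g (V hd x) +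
      ∑ s ∈ Ico 1 (Nat.find h + 1), ((∏ r ∈ range s, p r) * (1 - p s) : ℝ) * g (T hd s x)
  else
    (1 - p 0 : ℝ) * g x + (∏' r, p r : ℝ) * g (V hd x) +
      ∑' s : ℕ, ((∏ r ∈ range (s + 1), p r) * (1 - p (s + 1)) : ℝ) * g (T hd (s + 1) x)

end defs

/-- the residual spectrum of a bounded operator -/
def residualSpectrum {X : Type*} [NormedAddCommGroup X] [NormedSpace ℂ X] (S : X →L[ℂ] X) :
    Set ℂ :=
  {z | Function.Injective (fun x => S x - z • x) ∧ ¬ DenseRange (fun x => S x - z • x)}

/-! ### Products and the unified formula -/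

section lemmas

variable {d : ℕ → ℕ} (hd : ∀ r, 2 ≤ d r) {p : ℕ → ℝ} (hp : ∀ r, 0 < p r ∧ p r ≤ 1)

/-- partial products -/
noncomputable def pp (p : ℕ → ℝ) (s : ℕ) : ℝ := ∏ r ∈ range s, p r

lemma pp_zero : pp p 0 = 1 := by simp [pp]

lemma pp_succ (s : ℕ) : pp p (s + 1) = pp p s * p s := by
  rw [pp, pp, prod_range_succ]

include hp

lemma pp_nonneg (s : ℕ) : 0 ≤ pp p s := prod_nonneg (fun r _ => (hp r).1.le)

lemma pp_anti : Antitone (pp p) := by
  refine antitone_nat_of_succ_le (fun s => ?_)
  rw [pp_succ]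
  exact mul_le_of_le_one_right (pp_nonneg hp s) (hp s).2

/-- weights -/
noncomputable def wt (p : ℕ → ℝ) (s : ℕ) : ℝ := pp p s * (1 - p s)

lemma wt_nonneg (s : ℕ) : 0 ≤ wt p s :=
  mul_nonneg (pp_nonneg hp s) (sub_nonneg.2 (hp s).2)

omit hp in
lemma wt_eq (s : ℕ) : wt p s = pp p s - pp p (s + 1) := by
  rw [wt, pp_succ]; ring

omit hp in
lemma sum_wt (n m : ℕ) : ∑ s ∈ range m, wt p (n + s) = pp p n - pp p (n + m) := by
  induction m with
  | zero => simp
  | succ m ih =>
    rw [sum_range_succ, ih, wt_eq, ← add_assoc]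
    ring

lemma hasProd_inf : HasProd p (⨅ s, pp p s) := by
  have hbdd : BddBelow (Set.range (pp p)) := ⟨0, by rintro _ ⟨s, rfl⟩; exact pp_nonneg hp s⟩
  rw [HasProd, SummationFilter.unconditional_filter, Metric.tendsto_atTop]
  intro ε hε
  obtain ⟨s, hs⟩ := exists_lt_of_ciInf_lt (show (⨅ s, pp p s) < (⨅ s, pp p s) + ε by linarith)
  refine ⟨range s, fun t ht => ?_⟩
  have h1 : ∏ r ∈ t, p r ≤ pp p s := by
    rw [pp, ← prod_sdiff ht]
    exact mul_le_of_le_one_left (pp_nonneg hp s)
      (prod_le_one (fun r _ => (hp r).1.le) (fun r _ => (hp r).2))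
  have h2 : (⨅ s, pp p s) ≤ ∏ r ∈ t, p r := by
    obtain ⟨m, hm⟩ := t.exists_nat_subset_range
    refine (ciInf_le hbdd m).trans ?_
    rw [pp, ← prod_sdiff hm]
    exact mul_le_of_le_one_left (prod_nonneg (fun r _ => (hp r).1.le))
      (prod_le_one (fun r _ => (hp r).1.le) (fun r _ => (hp r).2))
  rw [Real.dist_eq, abs_lt]
  constructor <;> linarith

lemma pinf_eq : (∏' r, p r) = ⨅ s, pp p s := (hasProd_inf hp).tprod_eq

lemma pinf_nonneg : 0 ≤ ∏' r, p r := by
  rw [pinf_eq hp]
  exact le_ciInf (fun s => pp_nonneg hp s)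

lemma tendsto_pp : Filter.Tendsto (pp p) Filter.atTop (𝓝 (∏' r, p r)) := by
  rw [pinf_eq hp]
  exact tendsto_atTop_ciInf (pp_anti hp) ⟨0, by rintro _ ⟨s, rfl⟩; exact pp_nonneg hp s⟩

lemma hasSum_wt (n : ℕ) : HasSum (fun s => wt p (n + s)) (pp p n - ∏' r, p r) := by
  rw [hasSum_iff_tendsto_nat_of_nonneg (fun s => wt_nonneg hp _)]
  simp only [sum_wt]
  refine Filter.Tendsto.const_sub _ ?_
  have h := (tendsto_pp hp).comp (Filter.tendsto_add_atTop_nat n)
  refine h.congr (fun m => ?_)
  simp [add_comm]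

/-- the weights against a bounded sequence are summable -/
lemma summable_wt (n : ℕ) {u : ℕ → ℂ} {C : ℝ} (hu : ∀ s, ‖u s‖ ≤ C) :
    Summable (fun s => ((wt p (n + s) : ℝ) : ℂ) * u s) := by
  refine Summable.of_norm_bounded ((hasSum_wt hp n).summable.mul_right C) (fun s => ?_)
  rw [norm_mul, Complex.norm_real, Real.norm_of_nonneg (wt_nonneg hp _)]
  exact mul_le_mul_of_nonneg_left (hu s) (wt_nonneg hp _)

omit hp in
lemma T_zero (x : Digits d) : T hd 0 x = x := by
  funext r
  simp [T]

omit hp in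
/-- unified form of the formula, first case -/
lemma formula_pos (g : Digits d → ℂ) (x : Digits d) (t : ℕ)
    (h1 : ∀ r < t, (x r : ℕ) = d r - 1) (h2 : (x t : ℕ) ≠ d t - 1) :
    formula hd p g x = ∑ s ∈ range (t + 1), ((wt p s : ℝ) : ℂ) * g (T hd s x) +
        ((pp p (t + 1) : ℝ) : ℂ) * g (V hd x) ∧ (∀ r < t, V hd x r = zd hd r) ∧
      (V hd x t : ℕ) = ((x t : ℕ) + 1) % d t ∧ ∀ r > t, V hd x r = x r := by
  classical
  have h : HasSmall x := ⟨t, h2⟩
  have ht : Nat.find h = t := by
    rw [Nat.find_eq_iff]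
    exact ⟨h2, fun r hr => not_not.2 (h1 r hr)⟩
  refine ⟨?_, ?_, ?_, ?_⟩
  · rw [formula, dif_pos h, ht, Finset.sum_range_eq_add_Ico _ (Nat.succ_pos t)]
    rw [T_zero, wt, pp_zero, one_mul]
    simp only [wt, pp]
    ring
  · intro r hr
    rw [V, dif_pos h, ht]
    simp [hr]
  · rw [V, dif_pos h, ht]
    simp
  · intro r hr
    rw [V, dif_pos h, ht]
    simp [not_lt.2 hr.le, ne_of_gt hr]

/-- unified form of the formula, second case -/
lemma formula_neg (g : Digits d → ℂ) {C : ℝ} (hg : ∀ x, ‖g x‖ ≤ C) (x : Digits d)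
    (h : ¬ HasSmall x) :
    formula hd p g x = ∑' s : ℕ, ((wt p s : ℝ) : ℂ) * g (T hd s x) +
        ((∏' r, p r : ℝ) : ℂ) * g (V hd x) := by
  classical
  have hs : Summable (fun s => ((wt p s : ℝ) : ℂ) * g (T hd s x)) := by
    have := summable_wt hp 0 (u := fun s => g (T hd s x)) (fun s => hg _)
    simpa using this
  rw [formula, dif_neg h, hs.tsum_eq_zero_add]
  rw [T_zero, wt, pp_zero, one_mul]
  simp only [wt, pp]
  ring

omit hp in
lemma exists_first (x : Digits d) (h : HasSmall x) :
    ∃ t : ℕ, (∀ r < t, (x r : ℕ) = d r - 1) ∧ (x t : ℕ) ≠ d t - 1 := by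
  classical
  exact ⟨Nat.find h, fun r hr => not_not.1 (Nat.find_min h hr), Nat.find_spec h⟩

/-- the formula is an average -/
lemma norm_formula_le (g : Digits d → ℂ) {C : ℝ} (hg : ∀ x, ‖g x‖ ≤ C) (x : Digits d) :
    ‖formula hd p g x‖ ≤ C := by
  by_cases h : HasSmall x
  · obtain ⟨t, h1, h2⟩ := exists_first x h
    rw [(formula_pos hd g x t h1 h2).1]
    calc ‖∑ s ∈ range (t + 1), ((wt p s : ℝ) : ℂ) * g (T hd s x) +
          ((pp p (t + 1) : ℝ) : ℂ) * g (V hd x)‖
        ≤ ∑ s ∈ range (t + 1), ‖((wt p s : ℝ) : ℂ) * g (T hd s x)‖ +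
          ‖((pp p (t + 1) : ℝ) : ℂ) * g (V hd x)‖ :=
          (norm_add_le _ _).trans (add_le_add_left (norm_sum_le _ _) _)
      _ ≤ ∑ s ∈ range (t + 1), wt p s * C + pp p (t + 1) * C := by
          refine add_le_add (sum_le_sum fun s _ => ?_) ?_
          · rw [norm_mul, Complex.norm_real, Real.norm_of_nonneg (wt_nonneg hp _)]
            exact mul_le_mul_of_nonneg_left (hg _) (wt_nonneg hp _)
          · rw [norm_mul, Complex.norm_real, Real.norm_of_nonneg (pp_nonneg hp _)]
            exact mul_le_mul_of_nonneg_left (hg _) (pp_nonneg hp _)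
      _ = C := by
          rw [← sum_mul, ← add_mul]
          have := sum_wt (p := p) 0 (t + 1)
          simp only [zero_add] at this
          rw [this, pp_zero]
          ring
  · rw [formula_neg hd hp g hg x h]
    have hs : HasSum (fun s => wt p s * C) ((1 - ∏' r, p r) * C) := by
      have := (hasSum_wt hp 0).mul_right C
      simpa [pp_zero] using this
    have h1 : ‖∑' s : ℕ, ((wt p s : ℝ) : ℂ) * g (T hd s x)‖ ≤ (1 - ∏' r, p r) * C := by
      refine tsum_of_norm_bounded hs (fun s => ?_)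
      rw [norm_mul, Complex.norm_real, Real.norm_of_nonneg (wt_nonneg hp _)]
      exact mul_le_mul_of_nonneg_left (hg _) (wt_nonneg hp _)
    have h2 : ‖((∏' r, p r : ℝ) : ℂ) * g (V hd x)‖ ≤ (∏' r, p r) * C := by
      rw [norm_mul, Complex.norm_real, Real.norm_of_nonneg (pinf_nonneg hp)]
      exact mul_le_mul_of_nonneg_left (hg _) (pinf_nonneg hp)
    calc _ ≤ _ := norm_add_le _ _
      _ ≤ (1 - ∏' r, p r) * C + (∏' r, p r) * C := add_le_add h1 h2
      _ = C := by ring

/-- additivity -/
lemma formula_add (g g' : Digits d → ℂ) {C C' : ℝ} (hg : ∀ x, ‖g x‖ ≤ C)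
    (hg' : ∀ x, ‖g' x‖ ≤ C') (x : Digits d) :
    formula hd p (fun x => g x + g' x) x = formula hd p g x + formula hd p g' x := by
  by_cases h : HasSmall x
  · obtain ⟨t, h1, h2⟩ := exists_first x h
    rw [(formula_pos hd _ x t h1 h2).1, (formula_pos hd g x t h1 h2).1,
      (formula_pos hd g' x t h1 h2).1]
    simp only [mul_add, sum_add_distrib]
    ring
  · rw [formula_neg hd hp _ (C := C + C') (fun x => (norm_add_le _ _).trans
      (add_le_add (hg x) (hg' x))) x h, formula_neg hd hp g hg x h, formula_neg hd hp g' hg' x h]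
    have hs : Summable (fun s => ((wt p s : ℝ) : ℂ) * g (T hd s x)) := by
      have := summable_wt hp 0 (u := fun s => g (T hd s x)) (fun s => hg _)
      simpa using this
    have hs' : Summable (fun s => ((wt p s : ℝ) : ℂ) * g' (T hd s x)) := by
      have := summable_wt hp 0 (u := fun s => g' (T hd s x)) (fun s => hg' _)
      simpa using this
    simp only [mul_add]
    rw [hs.tsum_add hs']
    ring

omit hp in
/-- homogeneity -/
lemma formula_smul (g : Digits d → ℂ) (c : ℂ) (x : Digits d) :
    formula hd p (fun x => c * g x) x = c * formula hd p g x := by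
  classical
  rw [formula, formula]
  split_ifs with h
  · rw [mul_add, mul_add, mul_sum]
    congr 1
    · ring
    · refine sum_congr rfl (fun s _ => ?_)
      ring
  · rw [mul_add, mul_add, ← tsum_mul_left]
    congr 1
    · ring
    · refine tsum_congr (fun s => ?_)
      ring

/-- `g` depends only on the first `n` digits -/
def Dep (n : ℕ) (g : Digits d → ℂ) : Prop := ∀ x y, (∀ r < n, x r = y r) → g x = g y

/-- the common value at points with `n` leading top digits -/
lemma formula_top {n : ℕ} {g : Digits d → ℂ} (hdep : Dep n g) {C : ℝ} (hg : ∀ x, ‖g x‖ ≤ C)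
    (x : Digits d) (hx : ∀ r < n, (x r : ℕ) = d r - 1) :
    formula hd p g x = ∑ s ∈ range n, ((wt p s : ℝ) : ℂ) * g (T hd s x) +
      ((pp p n : ℝ) : ℂ) * g (zd hd) := by
  have hT : ∀ s, g (T hd (n + s) x) = g (zd hd) := by
    intro s
    refine hdep _ _ (fun r hr => ?_)
    rw [T, if_pos (by omega)]
  by_cases h : HasSmall x
  · obtain ⟨t, h1, h2⟩ := exists_first x h
    have hnt : n ≤ t := by
      by_contra hcon
      exact h2 (hx t (by omega))
    obtain ⟨f1, f2, -, -⟩ := formula_pos hd g x t h1 h2 (p := p)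
    have hV : g (V hd x) = g (zd hd) := hdep _ _ (fun r hr => f2 r (by omega))
    rw [f1, hV]
    obtain ⟨m, rfl⟩ := Nat.exists_eq_add_of_le hnt
    rw [add_assoc, sum_range_add]
    simp only [hT]
    rw [← sum_mul, ← Complex.ofReal_sum, sum_wt]
    push_cast
    ring
  · rw [formula_neg hd hp g hg x h]
    have hs : Summable (fun s => ((wt p s : ℝ) : ℂ) * g (T hd s x)) := by
      have := summable_wt hp 0 (u := fun s => g (T hd s x)) (fun s => hg _)
      simpa using this
    have hV : V hd x = zd hd := by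
      classical
      rw [V, dif_neg h]
    rw [hV, ← hs.sum_add_tsum_nat_add n]
    have h3 : ∑' i, ((wt p (i + n) : ℝ) : ℂ) * g (T hd (i + n) x) =
        ((pp p n - ∏' r, p r : ℝ) : ℂ) * g (zd hd) := by
      rw [← (hasSum_wt hp n).tsum_eq, Complex.ofReal_tsum, ← tsum_mul_right]
      refine tsum_congr (fun i => ?_)
      rw [add_comm i n, hT]
    rw [h3]
    push_cast
    ring

/-- The operator preserves functions of the first `n` digits. -/
lemma dep_formula {n : ℕ} {g : Digits d → ℂ} (hdep : Dep n g) {C : ℝ} (hg : ∀ x, ‖g x‖ ≤ C) :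
    Dep n (formula hd p g) := by
  intro x y hxy
  have hTT : ∀ s, g (T hd s x) = g (T hd s y) := by
    intro s
    refine hdep _ _ (fun r hr => ?_)
    rw [T, T, hxy r hr]
  by_cases hx : ∀ r < n, (x r : ℕ) = d r - 1
  · have hy : ∀ r < n, (y r : ℕ) = d r - 1 := fun r hr => by rw [← hxy r hr]; exact hx r hr
    rw [formula_top hd hp hdep hg x hx, formula_top hd hp hdep hg y hy]
    congr 1
    exact sum_congr rfl (fun s _ => by rw [hTT])
  · push Not at hx
    obtain ⟨r0, hr0, hr0'⟩ := hx
    obtain ⟨t, h1, h2⟩ := exists_first x ⟨r0, hr0'⟩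
    have ht : t < n := by
      by_contra hcon
      exact hr0' (h1 r0 (by omega))
    have h1' : ∀ r < t, (y r : ℕ) = d r - 1 := fun r hr => by
      rw [← hxy r (by omega)]; exact h1 r hr
    have h2' : (y t : ℕ) ≠ d t - 1 := by rw [← hxy t ht]; exact h2
    obtain ⟨f1, f2, f3, f4⟩ := formula_pos hd g x t h1 h2 (p := p)
    obtain ⟨e1, e2, e3, e4⟩ := formula_pos hd g y t h1' h2' (p := p)
    have hV : g (V hd x) = g (V hd y) := by
      refine hdep _ _ (fun r hr => ?_)
      rcases lt_trichotomy r t with h | h | h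
      · rw [f2 r h, e2 r h]
      · subst h
        apply Fin.ext
        rw [f3, e3, hxy r hr]
      · rw [f4 r h, e4 r h, hxy r hr]
    rw [f1, e1, hV]
    congr 1
    exact sum_congr rfl (fun s _ => by rw [hTT])

end lemmas

/-! ### Density -/

section density

variable {d : ℕ → ℕ}

lemma continuous_of_dep {n : ℕ} {g : Digits d → ℂ} (h : Dep n g) : Continuous g := by
  refine IsLocallyConstant.continuous ((IsLocallyConstant.iff_exists_open g).2 (fun x => ?_))
  refine ⟨{y | ∀ r < n, y r = x r}, ?_, fun r _ => rfl, fun y hy => h y x hy⟩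
  have : {y : Digits d | ∀ r < n, y r = x r} = ⋂ r ∈ Set.Iio n, {y | y r = x r} := by
    ext y; simp
  rw [this]
  refine (Set.finite_Iio n).isOpen_biInter (fun r _ => ?_)
  have h1 : {y : Digits d | y r = x r} = (fun y : Digits d => y r) ⁻¹' {x r} := rfl
  rw [h1]
  exact (isOpen_discrete _).preimage (continuous_apply r)

lemma Dep.mono {n m : ℕ} (hnm : n ≤ m) {g : Digits d → ℂ} (h : Dep n g) : Dep m g :=
  fun x y hxy => h x y (fun r hr => hxy r (lt_of_lt_of_le hr hnm))

/-- the functions depending on finitely many digits -/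
def cyl : StarSubalgebra ℂ C(Digits d, ℂ) where
  carrier := {g | ∃ n, Dep n g}
  mul_mem' := by
    rintro f g ⟨n, hn⟩ ⟨m, hm⟩
    refine ⟨max n m, fun x y hxy => ?_⟩
    rw [ContinuousMap.mul_apply, ContinuousMap.mul_apply, (hn.mono (le_max_left n m)) x y hxy,
      (hm.mono (le_max_right n m)) x y hxy]
  add_mem' := by
    rintro f g ⟨n, hn⟩ ⟨m, hm⟩
    refine ⟨max n m, fun x y hxy => ?_⟩
    rw [ContinuousMap.add_apply, ContinuousMap.add_apply, (hn.mono (le_max_left n m)) x y hxy,
      (hm.mono (le_max_right n m)) x y hxy]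
  algebraMap_mem' := fun r => ⟨0, fun x y _ => rfl⟩
  star_mem' := by
    rintro f ⟨n, hn⟩
    refine ⟨n, fun x y hxy => ?_⟩
    rw [ContinuousMap.star_apply, ContinuousMap.star_apply, hn x y hxy]

lemma cyl_dense : (cyl (d := d)).topologicalClosure = ⊤ := by
  refine ContinuousMap.starSubalgebra_topologicalClosure_eq_top_of_separatesPoints _ ?_
  intro x y hxy
  obtain ⟨r, hr⟩ := Function.ne_iff.1 hxy
  classical
  have hdep : Dep (r + 1) (fun z : Digits d => if z r = x r then (1 : ℂ) else 0) := by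
    intro z w hzw
    simp only [hzw r (Nat.lt_succ_self r)]
  refine ⟨fun z => if z r = x r then (1 : ℂ) else 0,
    ⟨⟨_, continuous_of_dep hdep⟩, ⟨r + 1, hdep⟩, rfl⟩, ?_⟩
  simp [Ne.symm hr]

lemma exists_dep_near (g : C(Digits d, ℂ)) {ε : ℝ} (hε : 0 < ε) :
    ∃ f : C(Digits d, ℂ), (∃ n, Dep n f) ∧ ‖g - f‖ < ε := by
  have h : g ∈ (cyl (d := d)).topologicalClosure := by rw [cyl_dense]; trivial
  have h' : g ∈ closure ((cyl (d := d)) : Set C(Digits d, ℂ)) := h
  obtain ⟨f, hf, hfg⟩ := Metric.mem_closure_iff.1 h' ε hε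
  exact ⟨f, hf, by rwa [dist_eq_norm] at hfg⟩

end density

/-! ### The operator -/

section op

variable {d : ℕ → ℕ} (hd : ∀ r, 2 ≤ d r) {p : ℕ → ℝ} (hp : ∀ r, 0 < p r ∧ p r ≤ 1)

include hp in
lemma continuous_formula (g : C(Digits d, ℂ)) : Continuous (formula hd p g) := by
  refine Metric.continuous_iff'.2 (fun x ε hε => ?_)
  obtain ⟨f, ⟨n, hn⟩, hfg⟩ := exists_dep_near g (ε := ε / 3) (by linarith)
  have hfc : Continuous (formula hd p f) :=
    continuous_of_dep (dep_formula hd hp hn (fun x => f.norm_coe_le_norm x))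
  have hdiff : ∀ y, ‖formula hd p g y - formula hd p f y‖ ≤ ε / 3 := by
    intro y
    have h1 := formula_add hd hp (fun x => g x - f x) f (C := ε / 3) (C' := ‖f‖)
      (fun x => ((g - f).norm_coe_le_norm x).trans hfg.le) (fun x => f.norm_coe_le_norm x) y
    simp only [sub_add_cancel] at h1
    have h2 : formula hd p g y - formula hd p f y = formula hd p (fun x => g x - f x) y := by
      rw [sub_eq_iff_eq_add]
      exact h1
    rw [h2]
    exact norm_formula_le hd hp _ (fun x => ((g - f).norm_coe_le_norm x).trans hfg.le) y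
  filter_upwards [Metric.continuous_iff'.1 hfc x (ε / 3) (by linarith)] with y hy
  rw [dist_eq_norm] at hy ⊢
  calc ‖formula hd p g y - formula hd p g x‖
      = ‖(formula hd p g y - formula hd p f y) + (formula hd p f y - formula hd p f x) -
          (formula hd p g x - formula hd p f x)‖ := by congr 1; ring
    _ ≤ ‖(formula hd p g y - formula hd p f y) + (formula hd p f y - formula hd p f x)‖ +
          ‖formula hd p g x - formula hd p f x‖ := norm_sub_le _ _
    _ ≤ ‖formula hd p g y - formula hd p f y‖ + ‖formula hd p f y - formula hd p f x‖ +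
          ‖formula hd p g x - formula hd p f x‖ := add_le_add_left (norm_add_le _ _) _
    _ < ε := by linarith [hdiff y, hdiff x]

/-- the stochastic adding machine operator on `C(Γ, ℂ)` -/
noncomputable def op : C(Digits d, ℂ) →L[ℂ] C(Digits d, ℂ) :=
  LinearMap.mkContinuous
    { toFun := fun g => ⟨formula hd p g, continuous_formula hd hp g⟩
      map_add' := fun g g' => by
        ext x
        exact formula_add hd hp g g' (fun x => g.norm_coe_le_norm x)
          (fun x => g'.norm_coe_le_norm x) x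
      map_smul' := fun c g => by
        ext x
        exact formula_smul hd g c x } 1 (fun g => by
      rw [one_mul]
      refine (ContinuousMap.norm_le _ (norm_nonneg g)).2 (fun x => ?_)
      exact norm_formula_le hd hp g (fun x => g.norm_coe_le_norm x) x)

lemma op_apply (g : C(Digits d, ℂ)) (x : Digits d) : op hd hp g x = formula hd p g x := rfl

/-- the space of functions of the first `n` digits -/
def W (d : ℕ → ℕ) (n : ℕ) : Submodule ℂ C(Digits d, ℂ) where
  carrier := {g | Dep n g}
  add_mem' := by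
    intro f g hf hg x y hxy
    rw [ContinuousMap.add_apply, ContinuousMap.add_apply, hf x y hxy, hg x y hxy]
  zero_mem' := fun x y _ => rfl
  smul_mem' := by
    intro c f hf x y hxy
    rw [ContinuousMap.smul_apply, ContinuousMap.smul_apply, hf x y hxy]

include hd in
lemma finite_W (n : ℕ) : Module.Finite ℂ (W d n) := by
  classical
  let ext : (∀ r : Fin n, Fin (d r)) → Digits d := fun w r =>
    if h : r < n then w ⟨r, h⟩ else zd hd r
  let F : W d n →ₗ[ℂ] ((∀ r : Fin n, Fin (d r)) → ℂ) :=
    { toFun := fun g w => g.1 (ext w)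
      map_add' := fun g g' => rfl
      map_smul' := fun c g => rfl }
  refine Module.Finite.of_injective F ?_
  intro g g' hgg
  apply Subtype.ext
  ext x
  have h1 := congrFun hgg (fun r => x r)
  have h2 : ∀ r < n, x r = ext (fun r => x r) r := by
    intro r hr
    simp only [ext, dif_pos hr]
  rw [g.2 x _ h2, g'.2 x _ h2]
  exact h1

end op

/-- **Q1 is true**, for all digit bases `d_r ≥ 2` (bounded or not) and all `p_r ∈ (0, 1]`: the
stochastic adding machine operator on `C(Γ)` is a bounded operator and its residual spectrum is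
empty. -/
theorem result (d : ℕ → ℕ) (hd : ∀ r, 2 ≤ d r) (p : ℕ → ℝ) (hp : ∀ r, 0 < p r ∧ p r ≤ 1) :
    ∃ S : C(Digits d, ℂ) →L[ℂ] C(Digits d, ℂ), (∀ g x, S g x = formula hd p g x) ∧
      residualSpectrum S = ∅ := by
  refine ⟨op hd hp, op_apply hd hp, ?_⟩
  rw [Set.eq_empty_iff_forall_notMem]
  rintro z ⟨hinj, hdense⟩
  apply hdense
  -- every cylinder function lies in the range
  have hrange : ∀ (n : ℕ) (g : C(Digits d, ℂ)), Dep n g →
      ∃ f : C(Digits d, ℂ), op hd hp f - z • f = g := by
    intro n g hg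
    have := finite_W hd n
    let L : C(Digits d, ℂ) →ₗ[ℂ] C(Digits d, ℂ) :=
      (op hd hp).toLinearMap - z • LinearMap.id
    have hL : ∀ f ∈ W d n, L f ∈ W d n := by
      intro f hf
      refine Submodule.sub_mem _ ?_ (Submodule.smul_mem _ _ hf)
      exact dep_formula hd hp hf (fun x => f.norm_coe_le_norm x)
    have hLi : Function.Injective (L.restrict hL) := by
      intro f f' hff
      apply Subtype.ext
      exact hinj (congrArg Subtype.val hff)
    obtain ⟨f, hf⟩ := (LinearMap.injective_iff_surjective.1 hLi) ⟨g, hg⟩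
    exact ⟨f.1, congrArg Subtype.val hf⟩
  intro g
  rw [Metric.mem_closure_iff]
  intro ε hε
  obtain ⟨f, ⟨n, hn⟩, hfg⟩ := exists_dep_near g hε
  obtain ⟨f', hf'⟩ := hrange n f hn
  exact ⟨f, ⟨f', hf'⟩, by rwa [dist_eq_norm]⟩

end Pool.Agent.Results.MP_8907f9_an.NoResidual
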